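import Pool.Agent.Q54.ZR.Stm

set_option autoImplicit false

/-! # Project ZR (helper54), jobs HAF and K2 -/

namespace Pool.Agent.Q96.ZR

open Finset
open Pool.Agent.Q54.ZR

theorem sq_one : ∀ x : ZMod 3, x ≠ 0 → x ^ 2 = 1 := by decide

theorem three_zero : (3 : ZMod 3) = 0 := by decide

section

variable {V : Type} [DecidableEq V] {c : V → V → ZMod 3}

theorem F2 (hFI : S_FI) (hc : IsSym c) {a b : V} {B : Finset V} (hab : a ≠ b) (ha : a ∉ B) (hb : b ∉ B) :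
    F c (insert a (insert b B)) = F c B + ∑ y ∈ B, c a y + ∑ y ∈ B, c b y + c a b := by
  rw [hFI V c (insert b B) a hc (by simp [hab, ha]), hFI V c B b hc hb, Finset.sum_insert hb]
  ring

theorem F4 (hFI : S_FI) (hc : IsSym c) {a b d e : V} {B : Finset V} (hab : a ≠ b) (had : a ≠ d) (hae : a ≠ e)
    (hbd : b ≠ d) (hbe : b ≠ e) (hde : d ≠ e) (ha : a ∉ B) (hb : b ∉ B) (hd : d ∉ B) (he : e ∉ B) :
    F c (insert a (insert b (insert d (insert e B)))) = F c B + ∑ y ∈ B, c a y + ∑ y ∈ B, c b y + ∑ y ∈ B, c d y +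
      ∑ y ∈ B, c e y + (c a b + c a d + c a e + c b d + c b e + c d e) := by
  have h1 : a ∉ insert d (insert e B) := by simp [had, hae, ha]
  have h2 : b ∉ insert d (insert e B) := by simp [hbd, hbe, hb]
  rw [F2 hFI hc hab h1 h2, F2 hFI hc hde hd he, Finset.sum_insert (by simp [hde, hd]), Finset.sum_insert he,
    Finset.sum_insert (by simp [hde, hd]), Finset.sum_insert he]
  ring

end

/-- ZR-K2 -/
theorem k2 (hFI : S_FI) : S_K2 := by
  intro V _ _ c n hc hN x1 x1' x2 x2' hnd hb B hB h1 h1' h2 h2'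
  simp only [List.nodup_cons, List.mem_cons, List.not_mem_nil, or_false, not_or, not_false_eq_true,
    List.nodup_nil, and_true] at hnd
  obtain ⟨⟨n12, n13, n14⟩, ⟨n23, n24⟩, n34⟩ := hnd
  have key : ∀ a b : V, a ∉ B → b ∉ B → a ≠ b → F c B + ∑ y ∈ B, c a y + ∑ y ∈ B, c b y + c a b ≠ 0 := by
    intro a b ha hb hab
    rw [← F2 hFI hc hab ha hb]
    apply hN _ (subset_univ _)
    rw [card_insert_of_notMem (by simp [hab, ha]), card_insert_of_notMem hb, ← hB]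
  have k1 := key x1 x2 h1 h2 n13
  have k2 := key x1' x2 h1' h2 n23
  have k3 := key x1 x2' h1 h2' n14
  have k4 := key x1' x2' h1' h2' n24
  rw [sum_sub_distrib, sum_sub_distrib]
  unfold br at hb ⊢
  generalize F c B = w at *
  generalize ∑ y ∈ B, c x1 y = t1 at *
  generalize ∑ y ∈ B, c x1' y = t1' at *
  generalize ∑ y ∈ B, c x2 y = t2 at *
  generalize ∑ y ∈ B, c x2' y = t2' at *
  generalize c x1 x2 = c1 at *
  generalize c x1' x2 = c2 at *
  generalize c x1 x2' = c3 at *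
  generalize c x1' x2' = c4 at *
  obtain ⟨u, hu⟩ : ∃ u, u = w + t1 + t2 + c1 := ⟨_, rfl⟩
  obtain ⟨a1, ha1⟩ : ∃ a1, a1 = t1' - t1 + (c2 - c1) := ⟨_, rfl⟩
  obtain ⟨a2, ha2⟩ : ∃ a2, a2 = t2' - t2 + (c3 - c1) := ⟨_, rfl⟩
  obtain ⟨b, hbb⟩ : ∃ b, b = c1 - c2 - c3 + c4 := ⟨_, rfl⟩
  have e2 : w + t1' + t2 + c2 = u + a1 := by rw [hu, ha1]; ring
  have e3 : w + t1 + t2' + c3 = u + a2 := by rw [hu, ha2]; ring
  have e4 : w + t1' + t2' + c4 = u + a1 + a2 + b := by rw [hu, ha1, ha2, hbb]; ring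
  rw [← hu] at k1
  rw [e2] at k2
  rw [e3] at k3
  rw [e4] at k4
  rw [← hbb] at hb ⊢
  rw [← ha1, ← ha2]
  clear hu ha1 ha2 hbb e2 e3 e4
  revert u a1 a2 b
  decide

/-- ZR-HAF -/
theorem haf (hFI : S_FI) : S_HAF := by
  intro V _ _ c n hc hn hcard hN x1 x1' x2 x2' x3 x3' x4 x4' hnd
  -- the set `B`
  obtain ⟨L, hL⟩ : ∃ L : List V, L = [x1, x1', x2, x2', x3, x3', x4, x4'] := ⟨_, rfl⟩
  have hLc : L.toFinset.card = 8 := by
    rw [List.toFinset_card_of_nodup (by rw [hL]; exact hnd), hL]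
    rfl
  obtain ⟨B, hB1, hB2⟩ : ∃ B : Finset V, B ⊆ univ \ L.toFinset ∧ B.card = n - 4 := by
    apply Finset.exists_subset_card_eq
    rw [card_sdiff_of_subset (subset_univ _), hLc, card_univ]
    omega
  have hB3 : ∀ x ∈ L, x ∉ B := by
    intro x hx hxB
    have := hB1 hxB
    rw [mem_sdiff, List.mem_toFinset] at this
    exact this.2 hx
  have b1 : x1 ∉ B := hB3 _ (by rw [hL]; simp)
  have b1' : x1' ∉ B := hB3 _ (by rw [hL]; simp)
  have b2 : x2 ∉ B := hB3 _ (by rw [hL]; simp)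
  have b2' : x2' ∉ B := hB3 _ (by rw [hL]; simp)
  have b3 : x3 ∉ B := hB3 _ (by rw [hL]; simp)
  have b3' : x3' ∉ B := hB3 _ (by rw [hL]; simp)
  have b4 : x4 ∉ B := hB3 _ (by rw [hL]; simp)
  have b4' : x4' ∉ B := hB3 _ (by rw [hL]; simp)
  have key : ∀ a b d e : V, a ∉ B → b ∉ B → d ∉ B → e ∉ B → a ≠ b → a ≠ d → a ≠ e → b ≠ d → b ≠ e → d ≠ e →
      (F c B + ∑ y ∈ B, c a y + ∑ y ∈ B, c b y + ∑ y ∈ B, c d y +
      ∑ y ∈ B, c e y + (c a b + c a d + c a e + c b d + c b e + c d e)) ^ 2 = 1 := by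
    intro a b d e ha hb hd he hab had hae hbd hbe hde
    apply sq_one
    rw [← F4 hFI hc hab had hae hbd hbe hde ha hb hd he]
    apply hN _ (subset_univ _)
    rw [card_insert_of_notMem (by simp [hab, had, hae, ha]), card_insert_of_notMem (by simp [hbd, hbe, hb]),
      card_insert_of_notMem (by simp [hde, hd]), card_insert_of_notMem he, hB2]
    omega
  simp only [List.nodup_cons, List.mem_cons, List.not_mem_nil, or_false, not_or, not_false_eq_true,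
    List.nodup_nil, and_true] at hnd
  obtain ⟨⟨-, n12, n12', n13, n13', n14, n14'⟩, ⟨m12, m12', m13, m13', m14, m14'⟩, ⟨-, n23, n23', n24, n24'⟩,
    ⟨m23, m23', m24, m24'⟩, ⟨-, n34, n34'⟩, ⟨m34, m34'⟩, -⟩ := hnd
  have k0000 := key x1 x2 x3 x4 b1 b2 b3 b4 n12 n13 n14 n23 n24 n34
  have k0001 := key x1 x2 x3 x4' b1 b2 b3 b4' n12 n13 n14' n23 n24' n34'
  have k0010 := key x1 x2 x3' x4 b1 b2 b3' b4 n12 n13' n14 n23' n24 m34
  have k0011 := key x1 x2 x3' x4' b1 b2 b3' b4' n12 n13' n14' n23' n24' m34'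
  have k0100 := key x1 x2' x3 x4 b1 b2' b3 b4 n12' n13 n14 m23 m24 n34
  have k0101 := key x1 x2' x3 x4' b1 b2' b3 b4' n12' n13 n14' m23 m24' n34'
  have k0110 := key x1 x2' x3' x4 b1 b2' b3' b4 n12' n13' n14 m23' m24 m34
  have k0111 := key x1 x2' x3' x4' b1 b2' b3' b4' n12' n13' n14' m23' m24' m34'
  have k1000 := key x1' x2 x3 x4 b1' b2 b3 b4 m12 m13 m14 n23 n24 n34
  have k1001 := key x1' x2 x3 x4' b1' b2 b3 b4' m12 m13 m14' n23 n24' n34'
  have k1010 := key x1' x2 x3' x4 b1' b2 b3' b4 m12 m13' m14 n23' n24 m34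
  have k1011 := key x1' x2 x3' x4' b1' b2 b3' b4' m12 m13' m14' n23' n24' m34'
  have k1100 := key x1' x2' x3 x4 b1' b2' b3 b4 m12' m13 m14 m23 m24 n34
  have k1101 := key x1' x2' x3 x4' b1' b2' b3 b4' m12' m13 m14' m23 m24' n34'
  have k1110 := key x1' x2' x3' x4 b1' b2' b3' b4 m12' m13' m14 m23' m24 m34
  have k1111 := key x1' x2' x3' x4' b1' b2' b3' b4' m12' m13' m14' m23' m24' m34'
  clear key
  have h3 := three_zero
  unfold br
  linear_combination 2 * (k0000 - k0001 - k0010 + k0011 - k0100 + k0101 + k0110 - k0111 - k1000 + k1001 + k1010 - k1011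
    + k1100 - k1101 - k1110 + k1111) - ((c x1 x2 - c x1' x2 - c x1 x2' + c x1' x2') *
      (c x3 x4 - c x3' x4 - c x3 x4' + c x3' x4') + (c x1 x3 - c x1' x3 - c x1 x3' + c x1' x3') *
      (c x2 x4 - c x2' x4 - c x2 x4' + c x2' x4') + (c x1 x4 - c x1' x4 - c x1 x4' + c x1' x4') *
      (c x2 x3 - c x2' x3 - c x2 x3' + c x2' x3')) * h3

end Pool.Agent.Q96.ZR
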